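import Pool.Agent.Helper69.MF.StB

/-!
# Project MF, module G7: `Y` points move in `S`; there are no `T` points off the axis
-/

set_option autoImplicit false

open Set Topology Filter MeasureTheory
open Pool.Agent.Helper31.CY Pool.Agent.Helper69.MF

namespace Pool.Agent.Helper9.MF

private theorem pt0 (a b c : ℝ) : (pt a b c) 0 = a := by simp [pt]

private theorem pt1 (a b c : ℝ) : (pt a b c) 1 = b := by simp [pt]

private theorem pt2 (a b c : ℝ) : (pt a b c) 2 = c := by simp [pt]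

private theorem ext3 {x y : E3} (h0 : x 0 = y 0) (h1 : x 1 = y 1) (h2 : x 2 = y 2) : x = y := by
  ext i
  fin_cases i
  · exact h0
  · exact h1
  · exact h2

private theorem pt_cont {a b c : E3 → ℝ} (ha : Continuous a) (hb : Continuous b)
    (hc : Continuous c) : Continuous (fun x => pt (a x) (b x) (c x)) := by
  unfold pt
  refine (PiLp.continuous_toLp 2 _).comp ?_
  refine continuous_pi fun i => ?_
  fin_cases i
  · simpa using ha
  · simpa using hb
  · simpa using hc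

private theorem Jv_cont : Continuous (fun x : E3 => Jv x) := by
  unfold Jv
  exact pt_cont (by fun_prop) (by fun_prop) continuous_const

private theorem Jv_ne {x : E3} (h : 0 < rad x) : Jv x ≠ 0 := by
  intro h0
  have h1 : (Jv x) 0 = 0 := by rw [h0]; rfl
  have h2 : (Jv x) 1 = 0 := by rw [h0]; rfl
  rw [Jv, pt0] at h1
  rw [Jv, pt1] at h2
  have h3 : x 1 = 0 := by linarith
  simp [rad, h2, h3] at h

private theorem rad_cont : Continuous (fun x : E3 => rad x) := by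
  unfold rad
  fun_prop

private theorem exists_equiv {A : E3 →L[ℝ] E3} (hA : ∀ v, v ≠ 0 → A v ≠ 0) :
    ∃ B : E3 ≃L[ℝ] E3, (B : E3 →L[ℝ] E3) = A := by
  have hinj : Function.Injective (A : E3 →ₗ[ℝ] E3) := by
    rw [injective_iff_map_eq_zero]
    intro v hv
    by_contra hne
    exact hA v hne hv
  refine ⟨(LinearEquiv.ofInjectiveEndo (A : E3 →ₗ[ℝ] E3) hinj).toContinuousLinearEquiv, ?_⟩
  ext v
  simp

private theorem key {r0 r1 h ε : ℝ} {S M : Set E3} {m : ℕ} {F : Fin m → Set E3} {N : Fin m → E3}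
    {y q : E3} {Φ : E3 → E3} {U : Set E3} (hU : IsOpen U) (hΦ : ContDiffOn ℝ 1 Φ U)
    (hS : ∀ x ∈ U, x ∈ S ↔ Φ x ∈ M) (hF : ∀ i, ∀ x ∈ F i, x ∈ M)
    (hG : ∀ q ∈ S, dist q y < ε → q ∈ U ∧ q ∉ circ r0 0 ∪ circ r1 h ∧
      (∀ v, v ≠ 0 → fderiv ℝ Φ q v ≠ 0) ∧
      ∀ i, Φ q ∈ F i → RegP S q ∧ ∀ v, v ∈ TCn S q ↔ dt (fderiv ℝ Φ q v) (N i) = 0)
    (hTT : TT r0 r1 h S) (hq : q ∈ U) (hqy : dist q y < ε) (hqr : 0 < rad q)
    (hinj : ∀ v, v ≠ 0 → fderiv ℝ Φ q v ≠ 0) (i : Fin m)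
    (hlim : ∀ δ : ℝ, 0 < δ → ∃ x ∈ F i, dist x (Φ q) < δ) :
    dt (fderiv ℝ Φ q (Jv q)) (N i) = 0 := by
  by_contra hne
  obtain ⟨B, hB⟩ := exists_equiv hinj
  have hc1 : ContinuousAt (fun x => fderiv ℝ Φ x) q :=
    (hΦ.continuousOn_fderiv_of_isOpen hU le_rfl).continuousAt (hU.mem_nhds hq)
  have hc2 : ContinuousAt (fun x => fderiv ℝ Φ x (Jv x)) q :=
    hc1.clm_apply Jv_cont.continuousAt
  have hdt : Continuous (fun v : E3 => dt v (N i)) := by
    unfold dt
    fun_prop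
  have hc3 : ContinuousAt (fun x => dt (fderiv ℝ Φ x (Jv x)) (N i)) q :=
    hdt.continuousAt.comp hc2
  have hcd : ContDiffAt ℝ 1 Φ q := hΦ.contDiffAt (hU.mem_nhds hq)
  have hd : HasStrictFDerivAt Φ (fderiv ℝ Φ q) q := hcd.hasStrictFDerivAt one_ne_zero
  have hd' : HasStrictFDerivAt Φ (B : E3 →L[ℝ] E3) q := by
    rw [hB]
    exact hd
  have hmap := hd'.map_nhds_eq_of_equiv
  have hW : {x | x ∈ U ∧ dist x y < ε ∧ 0 < rad x ∧
      dt (fderiv ℝ Φ x (Jv x)) (N i) ≠ 0} ∈ 𝓝 q := by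
    have e1 : ∀ᶠ x in 𝓝 q, x ∈ U := hU.mem_nhds hq
    have e2 : ∀ᶠ x in 𝓝 q, dist x y < ε :=
      (continuous_id.dist continuous_const).continuousAt.eventually_lt continuousAt_const hqy
    have e3 : ∀ᶠ x in 𝓝 q, 0 < rad x :=
      continuousAt_const.eventually_lt rad_cont.continuousAt hqr
    have e4 : ∀ᶠ x in 𝓝 q, dt (fderiv ℝ Φ x (Jv x)) (N i) ≠ 0 := hc3.eventually_ne hne
    filter_upwards [e1, e2, e3, e4] with x h1 h2 h3 h4
    exact ⟨h1, h2, h3, h4⟩
  have hW' : Φ '' {x | x ∈ U ∧ dist x y < ε ∧ 0 < rad x ∧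
      dt (fderiv ℝ Φ x (Jv x)) (N i) ≠ 0} ∈ 𝓝 (Φ q) := by
    rw [← hmap]
    exact image_mem_map hW
  obtain ⟨δ, hδ, hball⟩ := Metric.mem_nhds_iff.1 hW'
  obtain ⟨x, hxF, hx⟩ := hlim δ hδ
  obtain ⟨x', ⟨h1, h2, h3, h4⟩, rfl⟩ := hball (Metric.mem_ball.2 hx)
  have hx'S : x' ∈ S := (hS x' h1).2 (hF i _ hxF)
  obtain ⟨-, h5, -, h6⟩ := hG x' hx'S h2
  obtain ⟨h7, h8⟩ := h6 i hxF
  exact h4 ((h8 _).1 (hTT x' hx'S h5 h7 h3))

private theorem pt_smul (t : ℝ) : pt 0 0 t = t • pt 0 0 1 := by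
  refine ext3 ?_ ?_ ?_
  · rw [pt0, PiLp.smul_apply, pt0, smul_eq_mul, mul_zero]
  · rw [pt1, PiLp.smul_apply, pt1, smul_eq_mul, mul_zero]
  · rw [pt2, PiLp.smul_apply, pt2, smul_eq_mul, mul_one]

private theorem pt_deriv (t : ℝ) : HasDerivAt (fun s : ℝ => pt 0 0 s) (pt 0 0 1) t := by
  have h1 : (fun s : ℝ => pt 0 0 s) = fun s : ℝ => s • pt 0 0 1 := by
    funext s
    exact pt_smul s
  rw [h1]
  simpa using (hasDerivAt_id t).smul_const (pt 0 0 1)

private theorem co_deriv {γ : ℝ → E3} {v : E3} {t : ℝ} (hγ : HasDerivAt γ v t) (i : Fin 3) :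
    HasDerivAt (fun s => γ s i) (v i) t :=
  (EuclideanSpace.proj (𝕜 := ℝ) i).hasFDerivAt.comp_hasDerivAt t hγ

theorem hG7 : StFCE → StG0 → StG7 := by
  intro hFCE hG0 r0 r1 h S hMPS hTT y hyS hyΓ hyr
  obtain ⟨⟨FY, NY, hFY, hFYs, hNY⟩, FT, NT, hFT, hNT⟩ := hFCE
  refine ⟨?_, ?_⟩
  · rintro ⟨Φ, U, hU, hyU, hΦ, hΦy, hiso, hS⟩
    obtain ⟨ε, hε, hG⟩ := hG0 r0 r1 h S hMPS Tcone 6 FT NT (Or.inr rfl) hFT y hyS hyΓ Φ U hU hyU
      hΦ hΦy hiso hS
    have hz : fderiv ℝ Φ y (Jv y) = 0 := by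
      apply hNT
      intro i
      refine key hU hΦ hS (fun i x hx => (hFT.2.1 i x hx).1) hG hTT hyU (by simpa using hε) hyr
        ?_ i ?_
      · exact (hG y hyS (by simpa using hε)).2.2.1
      · intro δ hδ
        rw [hΦy]
        exact hFT.2.2.2.1 i δ hδ
    have h0 : ‖Jv y‖ = 0 := by rw [← hiso, hz, norm_zero]
    exact Jv_ne hyr (norm_eq_zero.1 h0)
  · rintro ⟨Φ, U, hU, hyU, hΦ, hΦy, hiso, hS⟩
    obtain ⟨ε, hε, hG⟩ := hG0 r0 r1 h S hMPS Ycone 3 FY NY (Or.inl rfl) hFY y hyS hyΓ Φ U hU hyU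
      hΦ hΦy hiso hS
    have hcd : ContDiffAt ℝ 1 Φ y := hΦ.contDiffAt (hU.mem_nhds hyU)
    obtain ⟨B, hB⟩ := exists_equiv (hG y hyS (by simpa using hε)).2.2.1
    have hBd : HasFDerivAt Φ (B : E3 →L[ℝ] E3) y := by
      rw [hB]
      exact (hcd.differentiableAt one_ne_zero).hasFDerivAt
    set e := hcd.toOpenPartialHomeomorph Φ hBd one_ne_zero with he
    have hecoe : ∀ x, e x = Φ x := fun x => rfl
    have hy1 : y ∈ e.source := hcd.mem_toOpenPartialHomeomorph_source hBd one_ne_zero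
    have h0t : pt 0 0 0 ∈ e.target := by
      have h1 := e.map_source hy1
      rw [hecoe, hΦy] at h1
      convert h1
      refine ext3 ?_ ?_ ?_
      · rw [pt0]; rfl
      · rw [pt1]; rfl
      · rw [pt2]; rfl
    have hpz : pt 0 0 0 = (0 : E3) := by
      rw [pt_smul, zero_smul]
    have hγ0 : e.symm (pt 0 0 0) = y := by
      rw [hpz, ← hΦy, ← hecoe]
      exact e.left_inv hy1
    have hptc : Continuous (fun t : ℝ => pt 0 0 t) :=
      continuous_iff_continuousAt.2 fun t => (pt_deriv t).continuousAt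
    have hγc : ContinuousAt (fun t : ℝ => e.symm (pt 0 0 t)) 0 :=
      ContinuousAt.comp (f := fun t : ℝ => pt 0 0 t) (g := e.symm)
        (e.continuousAt_symm h0t) hptc.continuousAt
    have hγt : Tendsto (fun t : ℝ => e.symm (pt 0 0 t)) (𝓝 0) (𝓝 y) := by
      have h1 := hγc.tendsto
      rwa [hγ0] at h1
    -- good parameters
    have hP : ∀ᶠ t : ℝ in 𝓝 0, pt 0 0 t ∈ e.target ∧ e.symm (pt 0 0 t) ∈ U ∧
        dist (e.symm (pt 0 0 t)) y < ε ∧ 0 < rad (e.symm (pt 0 0 t)) := by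
      have e0 : ∀ᶠ t : ℝ in 𝓝 0, pt 0 0 t ∈ e.target :=
        hptc.continuousAt.eventually (e.open_target.mem_nhds h0t)
      have e1 : ∀ᶠ t : ℝ in 𝓝 0, e.symm (pt 0 0 t) ∈ U := hγt.eventually (hU.mem_nhds hyU)
      have e2 : ∀ᶠ t : ℝ in 𝓝 0, dist (e.symm (pt 0 0 t)) y < ε :=
        hγt.eventually (Metric.ball_mem_nhds y hε)
      have e3 : ∀ᶠ t : ℝ in 𝓝 0, 0 < rad (e.symm (pt 0 0 t)) :=
        hγt.eventually (continuousAt_const.eventually_lt rad_cont.continuousAt hyr)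
      filter_upwards [e0, e1, e2, e3] with t h1 h2 h3 h4
      exact ⟨h1, h2, h3, h4⟩
    obtain ⟨δ, hδ, hPb⟩ := Metric.eventually_nhds_iff_ball.1 hP
    -- points on the curve are in `S`
    have hγΦ : ∀ t ∈ Metric.ball (0 : ℝ) δ, Φ (e.symm (pt 0 0 t)) = pt 0 0 t := by
      intro t ht
      rw [← hecoe]
      exact e.right_inv (hPb t ht).1
    have hγS : ∀ t ∈ Metric.ball (0 : ℝ) δ, e.symm (pt 0 0 t) ∈ S := by
      intro t ht
      rw [hS _ (hPb t ht).2.1, hγΦ t ht]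
      refine ⟨0, le_rfl, Or.inl ?_⟩
      rw [pt0, pt1]
    -- derivative of the curve
    have hder : ∀ t ∈ Metric.ball (0 : ℝ) δ, ∃ μ : ℝ, μ ≠ 0 ∧
        HasDerivAt (fun s : ℝ => e.symm (pt 0 0 s)) (μ • Jv (e.symm (pt 0 0 t))) t := by
      intro t ht
      obtain ⟨h1, h2, h3, h4⟩ := hPb t ht
      set q := e.symm (pt 0 0 t) with hq
      have hinj : ∀ v, v ≠ 0 → fderiv ℝ Φ q v ≠ 0 := (hG q (hγS t ht) h3).2.2.1
      obtain ⟨Bq, hBq⟩ := exists_equiv hinj
      have hqd : HasFDerivAt Φ (Bq : E3 →L[ℝ] E3) q := by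
        rw [hBq]
        exact ((hΦ.contDiffAt (hU.mem_nhds h2)).differentiableAt one_ne_zero).hasFDerivAt
      have hz : ∀ i, dt (fderiv ℝ Φ q (Jv q)) (NY i) = 0 := by
        intro i
        refine key hU hΦ hS (fun i x hx => (hFY.2.1 i x hx).1) hG hTT h2 h3 h4 hinj i ?_
        intro δ' hδ'
        rw [hq, hγΦ t ht]
        exact hFYs i t δ' hδ'
      obtain ⟨hz0, hz1⟩ := hNY _ hz
      set μ := (fderiv ℝ Φ q (Jv q)) 2 with hμ
      have hAJ : fderiv ℝ Φ q (Jv q) = pt 0 0 μ := by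
        refine ext3 ?_ ?_ ?_
        · rw [pt0, hz0]
        · rw [pt1, hz1]
        · rw [pt2]
      have hμ0 : μ ≠ 0 := by
        intro h0
        rw [h0, hpz] at hAJ
        exact hinj _ (Jv_ne h4) hAJ
      refine ⟨μ⁻¹, inv_ne_zero hμ0, ?_⟩
      have hsym : Bq.symm (pt 0 0 1) = μ⁻¹ • Jv q := by
        rw [ContinuousLinearEquiv.symm_apply_eq]
        have h5 : Bq (μ⁻¹ • Jv q) = μ⁻¹ • fderiv ℝ Φ q (Jv q) := by
          rw [map_smul, ← hBq]
          rfl
        rw [h5, hAJ, pt_smul μ, smul_smul, inv_mul_cancel₀ hμ0, one_smul]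
      have h6 : HasFDerivAt e.symm (Bq.symm : E3 →L[ℝ] E3) (pt 0 0 t) :=
        e.hasFDerivAt_symm h1 hqd
      have h7 := h6.comp_hasDerivAt t (pt_deriv t)
      have h8 : (Bq.symm : E3 →L[ℝ] E3) (pt 0 0 1) = μ⁻¹ • Jv q := hsym
      rw [h8] at h7
      exact h7
    have h0b : (0 : ℝ) ∈ Metric.ball (0 : ℝ) δ := Metric.mem_ball_self hδ
    -- the curve is on the circle through `y`
    have hcir : ∀ t ∈ Metric.ball (0 : ℝ) δ,
        (e.symm (pt 0 0 t) 0) ^ 2 + (e.symm (pt 0 0 t) 1) ^ 2 = y 0 ^ 2 + y 1 ^ 2 ∧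
          e.symm (pt 0 0 t) 2 = y 2 := by
      have hA : ∀ t ∈ Metric.ball (0 : ℝ) δ, HasDerivAt
          (fun s : ℝ => (e.symm (pt 0 0 s) 0) ^ 2 + (e.symm (pt 0 0 s) 1) ^ 2) 0 t := by
        intro t ht
        obtain ⟨μ, -, hd⟩ := hder t ht
        have h1 := (co_deriv hd 0).pow 2
        have h2 := (co_deriv hd 1).pow 2
        refine (h1.add h2).congr_deriv ?_
        simp only [PiLp.smul_apply, smul_eq_mul, Jv, pt0, pt1]
        ring
      have hC : ∀ t ∈ Metric.ball (0 : ℝ) δ, HasDerivAt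
          (fun s : ℝ => e.symm (pt 0 0 s) 2) 0 t := by
        intro t ht
        obtain ⟨μ, -, hd⟩ := hder t ht
        refine (co_deriv hd 2).congr_deriv ?_
        simp only [PiLp.smul_apply, smul_eq_mul, Jv, pt2]
        ring
      intro t ht
      have h1 := Metric.isOpen_ball.is_const_of_deriv_eq_zero
        (convex_ball (0 : ℝ) δ).isPreconnected
        (fun s hs => (hA s hs).differentiableAt.differentiableWithinAt)
        (fun s hs => (hA s hs).deriv) ht h0b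
      have h2 := Metric.isOpen_ball.is_const_of_deriv_eq_zero
        (convex_ball (0 : ℝ) δ).isPreconnected
        (fun s hs => (hC s hs).differentiableAt.differentiableWithinAt)
        (fun s hs => (hC s hs).deriv) ht h0b
      simp only [hγ0] at h1 h2
      exact ⟨h1, h2⟩
    -- the sine of the angle
    have hR : 0 < y 0 ^ 2 + y 1 ^ 2 := by
      unfold rad at hyr
      exact Real.sqrt_pos.1 hyr
    set R := y 0 ^ 2 + y 1 ^ 2 with hRd
    set a : ℝ → ℝ := fun t => (y 0 * e.symm (pt 0 0 t) 1 - y 1 * e.symm (pt 0 0 t) 0) / R with ha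
    set c : ℝ → ℝ := fun t => (y 0 * e.symm (pt 0 0 t) 0 + y 1 * e.symm (pt 0 0 t) 1) / R with hc
    have hγcd : ContDiffAt ℝ 1 (fun t : ℝ => e.symm (pt 0 0 t)) 0 := by
      have h1 : ContDiffAt ℝ 1 e.symm (pt 0 0 0) := by
        refine e.contDiffAt_symm h0t (f₀' := B) ?_ ?_
        · rw [hγ0]
          exact hBd
        · rw [hγ0]
          exact hcd
      have h2 : ContDiffAt ℝ 1 (fun t : ℝ => pt 0 0 t) 0 := by
        have h3 : (fun s : ℝ => pt 0 0 s) = fun s : ℝ => s • pt 0 0 1 := by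
          funext s
          exact pt_smul s
        rw [h3]
        fun_prop
      exact ContDiffAt.comp (f := fun t : ℝ => pt 0 0 t) (g := e.symm) 0 h1 h2
    have hcoo : ∀ i : Fin 3, ContDiffAt ℝ 1 (fun t : ℝ => e.symm (pt 0 0 t) i) 0 := by
      intro i
      exact (EuclideanSpace.proj (𝕜 := ℝ) i).contDiff.contDiffAt.comp (0 : ℝ) hγcd
    have hacd : ContDiffAt ℝ 1 a 0 := by
      have h1 := hcoo 0
      have h2 := hcoo 1
      exact ((contDiffAt_const.mul h2).sub (contDiffAt_const.mul h1)).div_const R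
    obtain ⟨μ, hμ, hd0⟩ := hder 0 h0b
    have had : HasDerivAt a μ 0 := by
      have h1 := (((co_deriv hd0 1).const_mul (y 0)).sub
        ((co_deriv hd0 0).const_mul (y 1))).div_const R
      refine h1.congr_deriv ?_
      simp only [PiLp.smul_apply, smul_eq_mul, Jv, pt0, pt1, hγ0]
      rw [div_eq_iff hR.ne', hRd]
      ring
    have hmapa : map a (𝓝 0) = 𝓝 (a 0) := (hacd.hasStrictDerivAt' had one_ne_zero).map_nhds_eq hμ
    have ha0 : a 0 = 0 := by
      simp only [ha, hγ0]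
      rw [div_eq_zero_iff]
      left
      ring
    have hc0 : c 0 = 1 := by
      simp only [hc, hγ0]
      rw [div_eq_one_iff_eq hR.ne', hRd]
      ring
    have hcc : ContinuousAt c 0 := by
      have h1 := (hcoo 0).continuousAt
      have h2 := (hcoo 1).continuousAt
      exact ((continuousAt_const.mul h1).add (continuousAt_const.mul h2)).div_const R
    have hV : {t : ℝ | t ∈ Metric.ball (0 : ℝ) δ ∧ 0 < c t} ∈ 𝓝 (0 : ℝ) := by
      have e1 : ∀ᶠ t : ℝ in 𝓝 0, t ∈ Metric.ball (0 : ℝ) δ := Metric.ball_mem_nhds 0 hδ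
      have e2 : ∀ᶠ t : ℝ in 𝓝 0, 0 < c t :=
        continuousAt_const.eventually_lt hcc (by rw [hc0]; exact one_pos)
      filter_upwards [e1, e2] with t h1 h2
      exact ⟨h1, h2⟩
    have hVa : a '' {t : ℝ | t ∈ Metric.ball (0 : ℝ) δ ∧ 0 < c t} ∈ 𝓝 (0 : ℝ) := by
      have h1 := image_mem_map (m := a) hV
      rwa [hmapa, ha0] at h1
    have hsin : ∀ᶠ s : ℝ in 𝓝 0,
        Real.sin s ∈ a '' {t : ℝ | t ∈ Metric.ball (0 : ℝ) δ ∧ 0 < c t} := by
      have h1 : Tendsto Real.sin (𝓝 0) (𝓝 0) := by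
        have := Real.continuous_sin.tendsto 0
        rwa [Real.sin_zero] at this
      exact h1.eventually hVa
    have hcos : ∀ᶠ s : ℝ in 𝓝 0, 0 < Real.cos s := by
      have h1 : (0 : ℝ) < Real.cos 0 := by rw [Real.cos_zero]; exact one_pos
      exact continuousAt_const.eventually_lt Real.continuous_cos.continuousAt h1
    obtain ⟨η, hη, hfin⟩ := Metric.eventually_nhds_iff_ball.1 (hsin.and hcos)
    refine ⟨η, hη, fun s hs => ?_⟩
    obtain ⟨⟨t, ⟨ht, hct⟩, hat⟩, hcs⟩ := hfin s (by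
      rw [Metric.mem_ball, Real.dist_eq, sub_zero]
      exact hs)
    obtain ⟨hci, hhe⟩ := hcir t ht
    set q := e.symm (pt 0 0 t) with hq
    have haR : a t * R = y 0 * q 1 - y 1 * q 0 := by
      simp only [ha, ← hq]
      field_simp
    have hcR : c t * R = y 0 * q 0 + y 1 * q 1 := by
      simp only [hc, ← hq]
      field_simp
    have hone : (c t) ^ 2 + (a t) ^ 2 = 1 := by
      have h1 : ((c t) ^ 2 + (a t) ^ 2) * (R * R) = 1 * (R * R) := by
        calc ((c t) ^ 2 + (a t) ^ 2) * (R * R) = (c t * R) ^ 2 + (a t * R) ^ 2 := by ring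
          _ = (y 0 ^ 2 + y 1 ^ 2) * (q 0 ^ 2 + q 1 ^ 2) := by rw [haR, hcR]; ring
          _ = 1 * (R * R) := by rw [hci, ← hRd, one_mul]
      exact mul_right_cancel₀ (mul_pos hR hR).ne' h1
    have hceq : c t = Real.cos s := by
      have h1 : (c t) ^ 2 = (Real.cos s) ^ 2 := by
        have h2 := Real.sin_sq_add_cos_sq s
        rw [hat] at hone
        linarith
      exact (pow_left_inj₀ hct.le hcs.le two_ne_zero).1 h1
    have hrot : rot s y = q := by
      have e0 : R * q 0 = R * (Real.cos s * y 0 - Real.sin s * y 1) := by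
        have h1 : R * (Real.cos s * y 0 - Real.sin s * y 1) =
            (c t * R) * y 0 - (a t * R) * y 1 := by rw [hceq, hat]; ring
        rw [h1, haR, hcR, hRd]
        ring
      have e1 : R * q 1 = R * (Real.sin s * y 0 + Real.cos s * y 1) := by
        have h1 : R * (Real.sin s * y 0 + Real.cos s * y 1) =
            (a t * R) * y 0 + (c t * R) * y 1 := by rw [hceq, hat]; ring
        rw [h1, haR, hcR, hRd]
        ring
      refine ext3 ?_ ?_ ?_
      · rw [rot, pt0]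
        exact (mul_left_cancel₀ hR.ne' e0).symm
      · rw [rot, pt1]
        exact (mul_left_cancel₀ hR.ne' e1).symm
      · rw [rot, pt2]
        exact hhe.symm
    rw [hrot]
    exact hγS t ht

end Pool.Agent.Helper9.MF
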